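import Pool.Agent.Work.MP_3e4917_al.Main

open Pool.Agent.Work.MP_3e4917_al

/-- All pairs of linear Jordan types of codimension two graded complete intersections with the
Hilbert function `hf a b`; `z` says whether the zero linear form is allowed. -/
theorem Pool.Agent.Results.MP_3e4917_al.JordanPairs.result (K : Type*) [Field K] [IsAlgClosed K]
    (a b : ℕ) (ha : 1 ≤ a) (hab : a ≤ b) (z : Prop) (P Q : Nat.Partition (a * b)) :
    Occurs K (hf a b) z P.parts Q.parts ↔
      (∃ S S' : Finset ℕ, a ∈ S ∧ S ⊆ Finset.range (a + 1) ∧ a ∈ S' ∧ S' ⊆ Finset.range (a + 1) ∧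
        P.parts = typ a b S ∧ Q.parts = typ a b S' ∧ (least S + least S' ≤ a ∨ S = S')) ∨
      (z ∧ ∃ S : Finset ℕ, a ∈ S ∧ S ⊆ Finset.range (a + 1) ∧
        ((P.parts = Multiset.replicate (a * b) 1 ∧ Q.parts = typ a b S) ∨
          (P.parts = typ a b S ∧ Q.parts = Multiset.replicate (a * b) 1) ∨
          (P.parts = Multiset.replicate (a * b) 1 ∧ Q.parts = Multiset.replicate (a * b) 1))) :=
  main a b ha hab z P.parts Q.parts (fun h => (P.parts_pos h).ne rfl)
    (fun h => (Q.parts_pos h).ne rfl)
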